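import Mathlib

/-! # The matroid of a finite family of vectors -/

set_option autoImplicit false

namespace Pool.Agent.H81.White

open Set Module

variable {α F V : Type*} [Field F] [AddCommGroup V] [Module F V] [FiniteDimensional F V]

theorem ncard_le_of_span {v : α → V} [Finite α] {I J : Set α}
    (hJ : LinearIndepOn F v J) (h : v '' J ⊆ Submodule.span F (v '' I)) :
    J.ncard ≤ I.ncard := by
  classical
  have := Fintype.ofFinite α
  have : Fintype J := Fintype.ofFinite J
  have : Fintype I := Fintype.ofFinite I
  have h1 : finrank F (Submodule.span F (Set.range (fun x : J => v x))) = Fintype.card J :=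
    finrank_span_eq_card hJ
  have hr : Set.range (fun x : J => v x) = v '' J := by
    ext y; simp
  have h2 : finrank F (Submodule.span F (v '' I)) ≤ Fintype.card I := by
    have h3 : finrank F (Submodule.span F (Set.range (fun x : I => v x))) ≤ Fintype.card I :=
      finrank_range_le_card (fun x : I => v x)
    have hr' : Set.range (fun x : I => v x) = v '' I := by
      ext y; simp
    rwa [hr'] at h3
  have h4 : Submodule.span F (v '' J) ≤ Submodule.span F (v '' I) := Submodule.span_le.2 h
  have h5 := Submodule.finrank_mono h4
  rw [hr] at h1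
  rw [h1] at h5
  have h6 := h5.trans h2
  rwa [← Nat.card_eq_fintype_card, ← Nat.card_eq_fintype_card] at h6

theorem aug {v : α → V} [Finite α] {I J : Set α} (hI : LinearIndepOn F v I)
    (hJ : LinearIndepOn F v J) (hlt : I.ncard < J.ncard) :
    ∃ e ∈ J, e ∉ I ∧ LinearIndepOn F v (insert e I) := by
  by_contra hcon
  push Not at hcon
  have hsub : v '' J ⊆ Submodule.span F (v '' I) := by
    rintro _ ⟨e, he, rfl⟩
    by_cases heI : e ∈ I
    · exact Submodule.subset_span ⟨e, heI, rfl⟩
    · by_contra hns
      exact hcon e he heI ((linearIndepOn_insert heI).2 ⟨hI, hns⟩)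
  exact absurd (ncard_le_of_span hJ hsub) (not_le.2 hlt)

/-- The matroid on `α` whose independent sets are the linearly independent subfamilies of `v`. -/
noncomputable def repMatroid (F : Type*) {α V : Type*} [Field F] [AddCommGroup V] [Module F V]
    [FiniteDimensional F V] [Finite α] (v : α → V) : Matroid α :=
  (IndepMatroid.ofFinite (E := Set.univ) (Set.toFinite _) (fun I => LinearIndepOn F v I)
    (linearIndepOn_empty F v) (fun _ _ hJ hIJ => hJ.mono hIJ)
    (fun _ _ hI hJ hlt => aug hI hJ hlt) (fun I _ => Set.subset_univ I)).matroid

variable [Finite α] (v : α → V)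

@[simp] theorem repMatroid_E : (repMatroid F v).E = Set.univ := rfl

@[simp] theorem repMatroid_indep {I : Set α} :
    (repMatroid F v).Indep I ↔ LinearIndepOn F v I := by
  simp [repMatroid, IndepMatroid.ofFinite, IndepMatroid.ofBddAugment]

theorem repMatroid_isBase {I : Set α} (h : (repMatroid F v).IsBase I) :
    LinearIndepOn F v I := (repMatroid_indep v).1 h.indep

theorem ncard_le_finrank {I : Set α} (h : LinearIndepOn F v I) : I.ncard ≤ finrank F V := by
  classical
  have : Fintype I := Fintype.ofFinite I
  have := h.fintype_card_le_finrank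
  rwa [← Nat.card_eq_fintype_card] at this

theorem isBase_of_ncard {I : Set α} (h : LinearIndepOn F v I) (hc : I.ncard = finrank F V) :
    (repMatroid F v).IsBase I := by
  refine ((repMatroid_indep v).2 h).isBase_of_maximal ?_
  intro J hJ hIJ
  refine Set.eq_of_subset_of_ncard_le hIJ ?_ (Set.toFinite _)
  rw [hc]
  exact ncard_le_finrank v ((repMatroid_indep v).1 hJ)

end Pool.Agent.H81.White
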