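import Mathlib
import Pool.Agent.H81.White.Rep

/-! # A binary matroid of rank 9 on 18 elements -/

set_option autoImplicit false

namespace Pool.Agent.H81.White

open Set Module

/-- Binary codes of the 18 vectors of `F_2^9`. -/
def code : Fin 18 → ℕ :=
  ![8, 9, 16, 17, 27, 26, 32, 34, 64, 66, 102, 100, 128, 132, 256, 260, 389, 385]

/-- The 18 vectors. -/
def vec (e : Fin 18) : Fin 9 → ZMod 2 := fun i => if (code e).testBit i then 1 else 0

/-- The rows of the 9 by 18 matrix, as masks. -/
def row : Fin 9 → ℕ := ![196634, 1712, 109568, 51, 60, 3264, 3840, 208896, 245760]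

/-- The word of a functional `f`, as a mask. -/
def word (f : ℕ) : ℕ :=
  (List.finRange 9).foldr (fun (i : Fin 9) a => (if f.testBit i then row i else 0) ^^^ a) 0

/-- The sum of the vectors in the mask `w`. -/
def syn (w : ℕ) : ℕ :=
  (List.finRange 18).foldr (fun (e : Fin 18) a => (if w.testBit e then code e else 0) ^^^ a) 0

/-- The words of the third coset. -/
def wd (f : ℕ) : ℕ := word f ^^^ 229

def pop (w : ℕ) : ℕ := (List.finRange 18).countP (fun e : Fin 18 => w.testBit e)

def tA (w : ℕ) : Bool := pop (w &&& 63) == 2 && pop (w &&& 4032) == 2 && pop (w &&& 258048) == 2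

def tB (w : ℕ) : Bool := pop w == 6 && !(tA w)

/-- The support of a mask. -/
def sup (w : ℕ) : Finset (Fin 18) := Finset.univ.filter (fun e : Fin 18 => w.testBit e)

theorem mem_sup {w : ℕ} {e : Fin 18} : e ∈ sup w ↔ w.testBit e = true := by simp [sup]

theorem card_sup (w : ℕ) : (sup w).card = pop w := by
  unfold sup pop
  rw [List.countP_eq_length_filter, Fin.univ_def]
  simp [Finset.card, Finset.filter]

theorem ite_add (a b : Bool) :
    ((if a then 1 else 0) + (if b then 1 else 0) : ZMod 2) = if (a ^^ b) then 1 else 0 := by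
  revert a b; decide

theorem sum_map_ite {ι : Type*} (l : List ι) (b : ι → Bool) :
    (l.map (fun i => if b i then (1 : ZMod 2) else 0)).sum
      = if l.foldr (fun i a => b i ^^ a) false then 1 else 0 := by
  induction l with
  | nil => simp
  | cons x l ih =>
    rw [List.map_cons, List.sum_cons, ih, ite_add]
    rfl

theorem testBit_foldr {ι : Type*} (l : List ι) (b : ι → Bool) (c : ι → ℕ) (j : ℕ) :
    (l.foldr (fun i a => (if b i then c i else 0) ^^^ a) 0).testBit j
      = l.foldr (fun i a => (b i && (c i).testBit j) ^^ a) false := by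
  induction l with
  | nil => simp
  | cons x l ih =>
    simp only [List.foldr_cons, Nat.testBit_xor, ih]
    cases b x <;> simp

theorem sum_fin_eq {n : ℕ} (g : Fin n → ZMod 2) :
    ∑ i, g i = ((List.finRange n).map g).sum := by
  rw [← List.ofFn_eq_map, List.sum_ofFn]

theorem row_code : ∀ i : Fin 9, ∀ e : Fin 18, (row i).testBit e = (code e).testBit i := by
  decide

/-- Functionals on `F_2^9` are given by numbers below 512. -/
theorem exists_functional (φ : (Fin 9 → ZMod 2) →ₗ[ZMod 2] ZMod 2) :
    ∃ f < 512, (∀ i : Fin 9, φ (Pi.single i 1) = if f.testBit i then 1 else 0) ∧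
      ∀ e, φ (vec e) = if (word f).testBit e then 1 else 0 := by
  classical
  set c : Fin 9 → Bool := fun i => decide (φ (Pi.single i 1) = 1) with hc
  have h01 : ∀ z : ZMod 2, z = if decide (z = 1) then 1 else 0 := by decide
  refine ⟨Nat.ofBits c, Nat.ofBits_lt_two_pow c, ?_⟩
  have hb : ∀ i : Fin 9, (Nat.ofBits c).testBit i = c i := fun i =>
    Nat.testBit_ofBits_lt c i i.2
  have h1 : ∀ i : Fin 9, φ (Pi.single i 1) = if (Nat.ofBits c).testBit i then 1 else 0 := by
    intro i
    rw [hb i]
    exact h01 _
  refine ⟨h1, fun e => ?_⟩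
  have h2 : vec e = ∑ i, (vec e i) • (Pi.single i 1 : Fin 9 → ZMod 2) := by
    ext j
    simp [Finset.sum_apply, Pi.single_apply]
  rw [h2, map_sum]
  have h3 : ∀ i : Fin 9, φ ((vec e i) • (Pi.single i 1 : Fin 9 → ZMod 2))
      = if ((Nat.ofBits c).testBit i && (row i).testBit e) then 1 else 0 := by
    intro i
    rw [map_smul, h1 i, row_code i e]
    unfold vec
    cases (Nat.ofBits c).testBit i <;> cases (code e).testBit i <;> simp
  rw [Finset.sum_congr rfl (fun i _ => h3 i), sum_fin_eq, sum_map_ite]
  unfold word
  rw [testBit_foldr]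

/-- If the sum of the vectors in a nonempty mask is zero, the mask is dependent. -/
theorem dep_of_syn {w : ℕ} {X : Set (Fin 18)} (hs : syn w = 0) (hX : ∀ e ∈ sup w, e ∈ X)
    (hne : (sup w).Nonempty) (hI : LinearIndepOn (ZMod 2) vec X) : False := by
  classical
  have hI' : LinearIndepOn (ZMod 2) vec (↑(sup w) : Set (Fin 18)) :=
    hI.mono (fun e he => hX e (by simpa using he))
  have h0 : ∑ e ∈ sup w, (1 : ZMod 2) • vec e = 0 := by
    ext j
    simp only [one_smul, Finset.sum_apply, Pi.zero_apply]
    unfold sup
    rw [Finset.sum_filter]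
    have h3 : ∀ e : Fin 18, (if w.testBit e = true then vec e j else 0)
        = if (w.testBit e && (code e).testBit j) then (1 : ZMod 2) else 0 := by
      intro e
      unfold vec
      cases w.testBit e <;> cases (code e).testBit j <;> simp
    rw [Finset.sum_congr rfl (fun e _ => h3 e), sum_fin_eq, sum_map_ite,
      ← testBit_foldr (List.finRange 18) (fun e => w.testBit e) code j]
    have : syn w = (List.finRange 18).foldr
      (fun (e : Fin 18) a => (if w.testBit e then code e else 0) ^^^ a) 0 := rfl
    rw [← this, hs]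
    simp
  obtain ⟨e, he⟩ := hne
  have := (linearIndepOn_finset_iff.1 hI') (fun _ => 1) h0 e he
  exact one_ne_zero this

end Pool.Agent.H81.White
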