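import Mathlib
import Pool.Agent.H81.White.Core

/-! # Finite checks -/

set_option autoImplicit false
set_option maxRecDepth 20000

namespace Pool.Agent.H81.White

/-- the nine four-element circuits inside the blocks -/
def hs : List ℕ := [15, 51, 60, 960, 3264, 3840, 61440, 208896, 245760]

def chk1 (f : ℕ) : Bool :=
  (syn (wd f) == 0 && pop (wd f) != 0) || Nat.ble 10 (pop (wd f)) || pop (wd f) == 6

theorem check1 : (List.range 512).all chk1 = true := by decide +kernel

def LA : List ℕ := ((List.range 512).map wd).filter tA
def LB : List ℕ := ((List.range 512).map wd).filter tB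

def chk2 (w v : ℕ) : Bool :=
  pop (w ||| v) == 10 && pop (w &&& v) != 0 && hs.any (fun h => pop (h &&& (w ||| v)) == 0)

theorem check2 : LA.all (fun w => LB.all (fun v => chk2 w v)) = true := by decide +kernel

theorem check3 : hs.all (fun h => syn h == 0 && pop h != 0) = true := by decide +kernel

def A0 : ℕ := 29127
def B0 : ℕ := 22357

def chk4 (X f : ℕ) : Bool := f == 0 || pop (word f &&& X) != 0

theorem check4 : [A0, 262143 ^^^ A0, B0, 262143 ^^^ B0].all
    (fun X => (List.range 512).all (chk4 X)) = true := by decide +kernel

theorem check5 : (pop A0 == 9 && pop B0 == 9 && LA.any (fun w => w ||| A0 == A0)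
    && LB.any (fun w => w ||| B0 == B0)) = true := by decide +kernel

end Pool.Agent.H81.White
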