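import Mathlib
import Pool.Agent.H81.White.Check

/-! # The two types of complementary bases -/

set_option autoImplicit false

namespace Pool.Agent.H81.White

open Set Module

/-- The binary matroid of rank 9 on 18 elements. -/
noncomputable abbrev M : Matroid (Fin 18) := repMatroid (ZMod 2) vec

/-- Type A sets contain a word of block type (2,2,2). -/
def TA (X : Set (Fin 18)) : Prop := ∃ w ∈ LA, ∀ e ∈ sup w, e ∈ X

/-- Type B sets contain a word of block type (3,3,0). -/
def TB (X : Set (Fin 18)) : Prop := ∃ w ∈ LB, ∀ e ∈ sup w, e ∈ X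

theorem finrank_V : finrank (ZMod 2) (Fin 9 → ZMod 2) = 9 := by simp

theorem ncard_compl_add (X : Set (Fin 18)) : X.ncard + Xᶜ.ncard = 18 := by
  have := Set.ncard_add_ncard_compl X
  simpa using this

theorem ncard_eq {X : Set (Fin 18)} (h : LinearIndepOn (ZMod 2) vec X)
    (hc : LinearIndepOn (ZMod 2) vec Xᶜ) : X.ncard = 9 ∧ Xᶜ.ncard = 9 := by
  have h1 := ncard_le_finrank vec h
  have h2 := ncard_le_finrank vec hc
  rw [finrank_V] at h1 h2
  have h3 := ncard_compl_add X
  omega

/-- On an independent set of size 9, functionals can be prescribed. -/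
theorem exists_wd {X : Set (Fin 18)} (hc : LinearIndepOn (ZMod 2) vec Xᶜ)
    (h9 : Xᶜ.ncard = 9) : ∃ f < 512, ∀ e ∈ sup (wd f), e ∈ X := by
  classical
  have : Fintype (↥(Xᶜ)) := Fintype.ofFinite _
  have hcard : Fintype.card (↥(Xᶜ)) = finrank (ZMod 2) (Fin 9 → ZMod 2) := by
    rw [finrank_V, ← h9, ← Nat.card_eq_fintype_card]
    rfl
  have hne : Nonempty (↥(Xᶜ)) := by
    rw [← Fintype.card_pos_iff, hcard, finrank_V]; norm_num
  let b := basisOfLinearIndependentOfCardEqFinrank hc hcard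
  have hb : ∀ x : (↥(Xᶜ)), b x = vec x := fun x =>
    congrFun (coe_basisOfLinearIndependentOfCardEqFinrank hc hcard) x
  let φ : (Fin 9 → ZMod 2) →ₗ[ZMod 2] ZMod 2 :=
    b.constr (ZMod 2) (fun x => if Nat.testBit 229 (x : Fin 18) then (1 : ZMod 2) else 0)
  have hφ : ∀ x : (↥(Xᶜ)), φ (vec x) = if Nat.testBit 229 (x : Fin 18) then (1 : ZMod 2) else 0 := by
    intro x
    rw [← hb x]
    exact b.constr_basis _ _ x
  obtain ⟨f, hf, -, hf2⟩ := exists_functional φ
  refine ⟨f, hf, fun e he => ?_⟩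
  by_contra hX
  have h1 := hφ ⟨e, hX⟩
  rw [hf2 e] at h1
  rw [mem_sup] at he
  unfold wd at he
  rw [Nat.testBit_xor] at he
  simp only at h1
  revert h1 he
  cases (word f).testBit (e : ℕ) <;> cases Nat.testBit 229 (e : ℕ) <;> simp

theorem mem_LA {w : ℕ} {f : ℕ} (hf : f < 512) (hw : w = wd f) (h : tA w = true) : w ∈ LA := by
  subst hw
  simp only [LA, List.mem_filter, List.mem_map, List.mem_range]
  exact ⟨⟨f, hf, rfl⟩, h⟩

theorem mem_LB {w : ℕ} {f : ℕ} (hf : f < 512) (hw : w = wd f) (h : tB w = true) : w ∈ LB := by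
  subst hw
  simp only [LB, List.mem_filter, List.mem_map, List.mem_range]
  exact ⟨⟨f, hf, rfl⟩, h⟩

theorem card_sup_le {w : ℕ} {X : Set (Fin 18)} (hX : ∀ e ∈ sup w, e ∈ X) :
    pop w ≤ X.ncard := by
  rw [← card_sup, ← Set.ncard_coe_finset]
  exact Set.ncard_le_ncard (fun e he => hX e (by simpa using he)) (Set.toFinite _)

theorem sup_nonempty {w : ℕ} (h : pop w ≠ 0) : (sup w).Nonempty := by
  rw [← Finset.card_pos, card_sup]; omega

/-- Every complementary base has type A or type B. -/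
theorem cover {X : Set (Fin 18)} (h : LinearIndepOn (ZMod 2) vec X)
    (hc : LinearIndepOn (ZMod 2) vec Xᶜ) : TA X ∨ TB X := by
  obtain ⟨h9, h9'⟩ := ncard_eq h hc
  obtain ⟨f, hf, hsub⟩ := exists_wd hc h9'
  have hk := List.all_eq_true.1 check1 f (List.mem_range.2 hf)
  unfold chk1 at hk
  simp only [Bool.or_eq_true, Bool.and_eq_true, beq_iff_eq, bne_iff_ne, Nat.ble_eq] at hk
  rcases hk with (⟨h1, h2⟩ | h1) | h1
  · exact (dep_of_syn h1 hsub (sup_nonempty h2) h).elim
  · have := card_sup_le hsub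
    omega
  · by_cases hA : tA (wd f) = true
    · exact Or.inl ⟨wd f, mem_LA hf rfl hA, hsub⟩
    · refine Or.inr ⟨wd f, mem_LB hf rfl ?_, hsub⟩
      unfold tB
      simp [h1, hA]

theorem sup_or {w v : ℕ} : sup (w ||| v) = sup w ∪ sup v := by
  ext e
  simp [mem_sup, Nat.testBit_or]

theorem sup_and {w v : ℕ} : sup (w &&& v) = sup w ∩ sup v := by
  ext e
  simp [mem_sup, Nat.testBit_and]

/-- A type A set and a type B set which are close force a circuit in the complement. -/
theorem clash {X Y : Set (Fin 18)} (hA : TA X) (hB : TB Y) (hc : LinearIndepOn (ZMod 2) vec Xᶜ)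
    (hU : (X ∪ Y).ncard ≤ 10) : False := by
  classical
  obtain ⟨w, hw, hwX⟩ := hA
  obtain ⟨v, hv, hvY⟩ := hB
  have hk := List.all_eq_true.1 (List.all_eq_true.1 check2 w hw) v hv
  unfold chk2 at hk
  simp only [Bool.and_eq_true, beq_iff_eq, bne_iff_ne, List.any_eq_true] at hk
  obtain ⟨⟨h10, -⟩, g, hg, hg0⟩ := hk
  have hsub : (↑(sup (w ||| v)) : Set (Fin 18)) ⊆ X ∪ Y := by
    intro e he
    rw [Finset.mem_coe, sup_or, Finset.mem_union] at he
    rcases he with he | he
    · exact Or.inl (hwX e he)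
    · exact Or.inr (hvY e he)
  have hEq : (↑(sup (w ||| v)) : Set (Fin 18)) = X ∪ Y := by
    refine Set.eq_of_subset_of_ncard_le hsub ?_ (Set.toFinite _)
    rw [Set.ncard_coe_finset, card_sup, h10]
    exact hU
  have hs := List.all_eq_true.1 check3 g hg
  simp only [Bool.and_eq_true, beq_iff_eq, bne_iff_ne] at hs
  refine dep_of_syn (w := g) (X := Xᶜ) hs.1 (fun e he hX => ?_) (sup_nonempty hs.2) hc
  have he2 : e ∈ sup (w ||| v) := by
    have : e ∈ (↑(sup (w ||| v)) : Set (Fin 18)) := by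
      rw [hEq]; exact Or.inl hX
    simpa using this
  have he3 : e ∈ sup (g &&& (w ||| v)) := by
    rw [sup_and, Finset.mem_inter]; exact ⟨he, he2⟩
  have : (sup (g &&& (w ||| v))).card = 0 := by rw [card_sup]; exact hg0
  rw [Finset.card_eq_zero] at this
  rw [this] at he3
  exact absurd he3 (Finset.notMem_empty e)

/-- Types are disjoint. -/
theorem not_both {X : Set (Fin 18)} (h : LinearIndepOn (ZMod 2) vec X)
    (hc : LinearIndepOn (ZMod 2) vec Xᶜ) (hA : TA X) (hB : TB X) : False := by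
  refine clash hA hB hc ?_
  rw [Set.union_self, (ncard_eq h hc).1]
  norm_num

/-- The type is invariant under complementation. -/
theorem TA_compl {X : Set (Fin 18)} (h : LinearIndepOn (ZMod 2) vec X)
    (hc : LinearIndepOn (ZMod 2) vec Xᶜ) (hA : TA X) : TA Xᶜ := by
  rcases cover hc (by rwa [compl_compl]) with h1 | h1
  · exact h1
  · exfalso
    obtain ⟨w, hw, hwX⟩ := hA
    obtain ⟨v, hv, hvY⟩ := h1
    have hk := List.all_eq_true.1 (List.all_eq_true.1 check2 w hw) v hv
    unfold chk2 at hk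
    simp only [Bool.and_eq_true, beq_iff_eq, bne_iff_ne, List.any_eq_true] at hk
    obtain ⟨⟨-, h0⟩, -⟩ := hk
    obtain ⟨e, he⟩ := sup_nonempty h0
    rw [sup_and, Finset.mem_inter] at he
    exact (hvY e he.2) (hwX e he.1)

/-- The type is invariant under a single exchange. -/
theorem TA_exchange {X Y : Set (Fin 18)} (hc : LinearIndepOn (ZMod 2) vec Xᶜ) (h' : LinearIndepOn (ZMod 2) vec Y)
    (hc' : LinearIndepOn (ZMod 2) vec Yᶜ) (hU : (X ∪ Y).ncard ≤ 10) (hA : TA X) : TA Y := by
  rcases cover h' hc' with h1 | h1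
  · exact h1
  · exact (clash hA h1 hc hU).elim

theorem span_of_chk {X : ℕ} (h : (List.range 512).all (chk4 X) = true) :
    Submodule.span (ZMod 2) (vec '' (↑(sup X) : Set (Fin 18))) = ⊤ := by
  by_contra hne
  obtain ⟨φ, hφ, hφ'⟩ := Submodule.exists_le_ker_of_lt_top _ (lt_top_iff_ne_top.2 hne)
  obtain ⟨f, hf, hf1, hf2⟩ := exists_functional φ
  have hk := List.all_eq_true.1 h f (List.mem_range.2 hf)
  unfold chk4 at hk
  simp only [Bool.or_eq_true, beq_iff_eq, bne_iff_ne] at hk
  rcases hk with h0 | h0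
  · refine hφ (LinearMap.pi_ext' fun i => LinearMap.ext_ring ?_)
    simp [hf1 i, h0]
  · obtain ⟨e, he⟩ := sup_nonempty h0
    rw [sup_and, Finset.mem_inter, mem_sup] at he
    have h2 : φ (vec e) = 0 := hφ' (Submodule.subset_span ⟨e, by simpa using he.2, rfl⟩)
    rw [hf2 e, he.1] at h2
    simp at h2

theorem indep_of_chk {X : ℕ} (h : (List.range 512).all (chk4 X) = true) (h9 : pop X = 9) :
    LinearIndepOn (ZMod 2) vec (↑(sup X) : Set (Fin 18)) := by
  classical
  refine linearIndependent_of_top_le_span_of_card_eq_finrank ?_ ?_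
  · have hr : Set.range (fun x : (↑(sup X) : Set (Fin 18)) => vec x)
        = vec '' (↑(sup X) : Set (Fin 18)) := by
      ext y; simp
    rw [hr, span_of_chk h]
  · rw [finrank_V]
    simp [card_sup, h9]

end Pool.Agent.H81.White
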