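import Mathlib
import Pool.Agent.H81.White.Main

/-! # Two complementary bases of different types -/

set_option autoImplicit false

namespace Pool.Agent.H81.White

open Set Module

/-- First base: in each block, a pair and one further element. -/
noncomputable def SA : Set (Fin 18) := ↑(sup A0)

/-- Second base. -/
noncomputable def SB : Set (Fin 18) := ↑(sup B0)

theorem full_testBit : ∀ e : Fin 18, Nat.testBit 262143 e = true := by decide

theorem coe_sup_compl (X : ℕ) :
    (↑(sup (262143 ^^^ X)) : Set (Fin 18)) = (↑(sup X) : Set (Fin 18))ᶜ := by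
  ext e
  rw [Set.mem_compl_iff, Finset.mem_coe, Finset.mem_coe, mem_sup, mem_sup, Nat.testBit_xor,
    full_testBit e]
  cases X.testBit (e : ℕ) <;> simp

theorem chk_mem {X : ℕ} (h : X ∈ [A0, 262143 ^^^ A0, B0, 262143 ^^^ B0]) :
    (List.range 512).all (chk4 X) = true := List.all_eq_true.1 check4 X h

theorem indepA : LinearIndepOn (ZMod 2) vec SA :=
  indep_of_chk (chk_mem (by simp)) (by
    have := check5
    simp only [Bool.and_eq_true, beq_iff_eq] at this
    exact this.1.1.1)

theorem indepB : LinearIndepOn (ZMod 2) vec SB :=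
  indep_of_chk (chk_mem (by simp)) (by
    have := check5
    simp only [Bool.and_eq_true, beq_iff_eq] at this
    exact this.1.1.2)

theorem popcompl {X : ℕ} (h : pop X = 9) : pop (262143 ^^^ X) = 9 := by
  have h1 := ncard_compl_add (↑(sup X) : Set (Fin 18))
  rw [← coe_sup_compl, Set.ncard_coe_finset, Set.ncard_coe_finset, card_sup, card_sup, h] at h1
  omega

theorem indepA' : LinearIndepOn (ZMod 2) vec SAᶜ := by
  unfold SA
  rw [← coe_sup_compl]
  refine indep_of_chk (chk_mem (by simp)) (popcompl ?_)
  have := check5
  simp only [Bool.and_eq_true, beq_iff_eq] at this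
  exact this.1.1.1

theorem indepB' : LinearIndepOn (ZMod 2) vec SBᶜ := by
  unfold SB
  rw [← coe_sup_compl]
  refine indep_of_chk (chk_mem (by simp)) (popcompl ?_)
  have := check5
  simp only [Bool.and_eq_true, beq_iff_eq] at this
  exact this.1.1.2

theorem base_of_indep {X : Set (Fin 18)} (h : LinearIndepOn (ZMod 2) vec X)
    (hc : LinearIndepOn (ZMod 2) vec Xᶜ) : M.IsBase X :=
  isBase_of_ncard vec h (by rw [(ncard_eq h hc).1, finrank_V])

theorem baseA : M.IsBase SA := base_of_indep indepA indepA'
theorem baseA' : M.IsBase SAᶜ := base_of_indep indepA' (by rw [compl_compl]; exact indepA)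
theorem baseB : M.IsBase SB := base_of_indep indepB indepB'
theorem baseB' : M.IsBase SBᶜ := base_of_indep indepB' (by rw [compl_compl]; exact indepB)

theorem sub_of_or {w X : ℕ} (h : w ||| X = X) : ∀ e ∈ sup w, e ∈ (↑(sup X) : Set (Fin 18)) := by
  intro e he
  have : e ∈ sup (w ||| X) := by rw [sup_or]; exact Finset.mem_union_left _ he
  rw [h] at this
  simpa using this

theorem typeA : TA SA := by
  have := check5
  simp only [Bool.and_eq_true, beq_iff_eq, List.any_eq_true] at this
  obtain ⟨w, hw, hwX⟩ := this.1.2
  exact ⟨w, hw, sub_of_or hwX⟩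

theorem typeB : TB SB := by
  have := check5
  simp only [Bool.and_eq_true, beq_iff_eq, List.any_eq_true] at this
  obtain ⟨w, hw, hwX⟩ := this.2
  exact ⟨w, hw, sub_of_or hwX⟩

theorem not_typeA : ¬ TA SB := fun h => not_both indepB indepB' h typeB

end Pool.Agent.H81.White
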