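import Mathlib
import Pool.Agent.H81.White.Ends

/-! # The complementary basis graph of `M` is disconnected -/

set_option autoImplicit false

namespace Pool.Agent.H81.White

open Set Module

theorem union_ncard_le_of_symmDiff {X Y : Set (Fin 18)} (hX : X.ncard = 9) (hY : Y.ncard = 9)
    (h : (symmDiff X Y).ncard = 2) : (X ∪ Y).ncard ≤ 10 := by
  have h1 : (X ∪ Y).ncard + (X ∩ Y).ncard = 18 := by
    rw [Set.ncard_union_add_ncard_inter, hX, hY]
  have h2 : (symmDiff X Y).ncard + (X ∩ Y).ncard = (X ∪ Y).ncard := by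
    have hd : Disjoint (symmDiff X Y) (X ∩ Y) := by
      rw [Set.disjoint_left]
      rintro e he ⟨h1, h2⟩
      rcases (Set.mem_symmDiff).1 he with ⟨_, h3⟩ | ⟨_, h3⟩
      · exact h3 h2
      · exact h3 h1
    rw [← Set.ncard_union_eq hd]
    congr 1
    ext e
    simp only [Set.mem_union, Set.mem_symmDiff, Set.mem_inter_iff]
    tauto
  omega

instance : Subsingleton (Fin (2 - 1)) := inferInstanceAs (Subsingleton (Fin 1))

theorem indep_of_parts {X : Set (Fin 18)}
    (h : ∃ C : Fin (2 - 1) → Set (Fin 18), (∀ i, M.IsBase (C i)) ∧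
      Pairwise (Function.onFun Disjoint C) ∧ (⋃ i, C i) = M.E \ X) :
    LinearIndepOn (ZMod 2) vec Xᶜ := by
  obtain ⟨C, hC, -, hU⟩ := h
  have h1 : (⋃ i, C i) = C 0 := by
    ext e
    simp only [Set.mem_iUnion]
    constructor
    · rintro ⟨i, hi⟩
      rwa [Subsingleton.elim i 0] at hi
    · intro hi
      exact ⟨0, hi⟩
  have h2 : C 0 = Xᶜ := by
    rw [← h1, hU, repMatroid_E]
    ext e; simp
  rw [← h2]
  exact repMatroid_isBase vec (hC 0)

theorem parts_of_compl {X : Set (Fin 18)} (h : M.IsBase Xᶜ) :
    ∃ C : Fin (2 - 1) → Set (Fin 18), (∀ i, M.IsBase (C i)) ∧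
      Pairwise (Function.onFun Disjoint C) ∧ (⋃ i, C i) = M.E \ X := by
  refine ⟨fun _ => Xᶜ, fun _ => h, ?_, ?_⟩
  · intro i j hij
    exact (hij (Subsingleton.elim i j)).elim
  · rw [repMatroid_E]
    ext e; simp

/-- The complementary basis graph of `M` (with two parts) is not connected. -/
theorem not_connected :
    ¬ (∀ (α : Type) (M : Matroid α) (k : ℕ), M.Finite → 1 ≤ k →
      (∃ B : Fin k → Set α, (∀ i, M.IsBase (B i)) ∧
          Pairwise (Function.onFun Disjoint B) ∧ (⋃ i, B i) = M.E) →
      (SimpleGraph.fromRel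
        (fun (X Y : {X : Set α // M.IsBase X ∧
            ∃ C : Fin (k - 1) → Set α, (∀ i, M.IsBase (C i)) ∧
              Pairwise (Function.onFun Disjoint C) ∧ (⋃ i, C i) = M.E \ X}) =>
          (symmDiff X.1 Y.1).ncard = 2)).Connected) := by
  intro hall
  have hcon := hall (Fin 18) Pool.Agent.H81.White.M 2 ⟨Set.toFinite _⟩ (by norm_num) ?_
  · have hreach := hcon.preconnected ⟨SA, baseA, parts_of_compl baseA'⟩
      ⟨SB, baseB, parts_of_compl baseB'⟩
    obtain ⟨p⟩ := hreach
    have key : ∀ (x y : {X : Set (Fin 18) // Pool.Agent.H81.White.M.IsBase X ∧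
        ∃ C : Fin (2 - 1) → Set (Fin 18), (∀ i, Pool.Agent.H81.White.M.IsBase (C i)) ∧
          Pairwise (Function.onFun Disjoint C) ∧ (⋃ i, C i) = Pool.Agent.H81.White.M.E \ X})
        (_ : (SimpleGraph.fromRel
          (fun (X Y : {X : Set (Fin 18) // Pool.Agent.H81.White.M.IsBase X ∧
            ∃ C : Fin (2 - 1) → Set (Fin 18), (∀ i, Pool.Agent.H81.White.M.IsBase (C i)) ∧
              Pairwise (Function.onFun Disjoint C) ∧
                (⋃ i, C i) = Pool.Agent.H81.White.M.E \ X}) =>
          (symmDiff X.1 Y.1).ncard = 2)).Walk x y), TA x.1 → TA y.1 := by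
      intro x y q
      induction q with
      | nil => exact id
      | @cons u v w hadj q ih =>
        intro hu
        refine ih ?_
        rw [SimpleGraph.fromRel_adj] at hadj
        have hu1 := repMatroid_isBase vec u.2.1
        have hu2 := indep_of_parts u.2.2
        have hv1 := repMatroid_isBase vec v.2.1
        have hv2 := indep_of_parts v.2.2
        have hs : (symmDiff u.1 v.1).ncard = 2 := by
          rcases hadj.2 with h | h
          · exact h
          · rwa [symmDiff_comm] at h
        exact TA_exchange hu2 hv1 hv2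
          (union_ncard_le_of_symmDiff (ncard_eq hu1 hu2).1 (ncard_eq hv1 hv2).1 hs) hu
    exact not_typeA (key _ _ p typeA)
  · refine ⟨![SA, SAᶜ], ?_, ?_, ?_⟩
    · intro i
      fin_cases i
      · exact baseA
      · exact baseA'
    · intro i j hij
      fin_cases i <;> fin_cases j
      · exact (hij rfl).elim
      · exact disjoint_compl_right
      · exact disjoint_compl_left
      · exact (hij rfl).elim
    · rw [repMatroid_E]
      ext e
      simp only [Set.mem_iUnion, Fin.exists_fin_two, Set.mem_univ, iff_true]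
      by_cases h : e ∈ SA
      · exact Or.inl h
      · exact Or.inr h

end Pool.Agent.H81.White
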